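import Pool.Agent.R893.TP2.Stm
import Pool.Agent.H254R3.IN.Idem

/-!
# Tensor powers of blocks: the external product of irreducible characters is injective
-/

open scoped BigOperators Classical

noncomputable section

namespace Pool.Agent.R893.TP2

open Pool.Agent.H254R3.IN

theorem inj_aux {G : Type} [Group G] [Fintype G] {χ χ' : G → ℂ} (h : IsIrr χ) (h' : IsIrr χ')
    (c : ℂ) (hc : c ≠ 0) (e : ∀ g, χ g = c * χ' g) : χ = χ' := by
  by_contra hne
  have h1 := irr_orth h h'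
  rw [if_neg hne] at h1
  have h2 := irr_orth h' h'
  rw [if_pos rfl] at h2
  have h3 : (Nat.card G : ℂ)⁻¹ * ∑ g : G, χ g * χ' g⁻¹ =
      c * ((Nat.card G : ℂ)⁻¹ * ∑ g : G, χ' g * χ' g⁻¹) := by
    have h4 : ∑ g : G, χ g * χ' g⁻¹ = c * ∑ g : G, χ' g * χ' g⁻¹ := by
      rw [Finset.mul_sum]
      refine Finset.sum_congr rfl fun g _ => ?_
      rw [e g]
      ring
    rw [h4]
    ring
  rw [h1, h2, mul_one] at h3
  exact hc h3.symm

theorem inj : S_INJ := by
  intro G H _ _ _ _ χ χ' ψ ψ' hχ hχ' hψ hψ' h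
  have : Fintype G := Fintype.ofFinite G
  have hv : ∀ g y, χ g * ψ y = χ' g * ψ' y := fun g y => congrFun h (g, y)
  have h1 : ψ 1 ≠ 0 := hψ.one_ne
  have h2 : ψ' 1 ≠ 0 := hψ'.one_ne
  have h3 : χ 1 ≠ 0 := hχ.one_ne
  have h4 : χ = χ' := by
    refine inj_aux hχ hχ' (ψ' 1 / ψ 1) (div_ne_zero h2 h1) fun g => ?_
    have := hv g 1
    field_simp
    linear_combination this
  refine ⟨h4, ?_⟩
  funext y
  have h5 := hv 1 y
  rw [← h4] at h5
  exact mul_left_cancel₀ h3 h5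

end Pool.Agent.R893.TP2
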