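import Pool.Agent.R893.TP2.Stm
import Pool.Agent.H254R3.IN.Chars

/-!
# TP2-IRRC: every irreducible character of `G × H` is an external product
-/

set_option autoImplicit false

open scoped BigOperators Classical

noncomputable section

namespace Pool.Agent.R893.TP2

open Pool.Agent.H254R3.IN Pool.Agent.Helper884

theorem irrc (hirr : S_IRR) : S_IRRC := by
  intro G H _ _ _ _ φ hφ
  haveI := Fintype.ofFinite G
  haveI := Fintype.ofFinite H
  by_contra hcon
  push Not at hcon
  have horth : ∀ (χ : G → ℂ) (ψ : H → ℂ), IsIrr χ → IsIrr ψ →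
      ∑ z : G × H, φ z * ext χ ψ z⁻¹ = 0 := by
    intro χ ψ hχ hψ
    have h1 : IC.B φ (ext χ ψ) = 0 := by
      rw [IC.B_irr (chi := φ) (psi := ext χ ψ) hφ (hirr G H χ ψ hχ hψ),
        if_neg (hcon χ ψ hχ hψ)]
    unfold IC.B at h1
    rcases mul_eq_zero.1 h1 with h | h
    · exact absurd h (inv_ne_zero IC.cardG_ne)
    · exact h
  have hstep : ∀ (ψ : H → ℂ), IsIrr ψ → ∀ g : G, ∑ h : H, φ (g, h) * ψ h⁻¹ = 0 := by
    intro ψ hψ
    have h1 : (fun g : G => ∑ h : H, φ (g, h) * ψ h⁻¹) = 0 := by
      apply IC.class_eq_zero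
      · intro g y
        refine Finset.sum_congr rfl fun h _ => ?_
        have := hφ.conj (g, h) (y, 1)
        simp only [Prod.mk_mul_mk, Prod.inv_mk, one_mul, inv_one, mul_one] at this
        rw [this]
      · intro χ hχ
        unfold IC.B
        have h2 := horth χ ψ hχ hψ
        rw [Fintype.sum_prod_type] at h2
        have h3 : ∑ g : G, (∑ h : H, φ (g, h) * ψ h⁻¹) * χ g⁻¹ =
            ∑ g : G, ∑ h : H, φ (g, h) * ext χ ψ (g, h)⁻¹ := by
          refine Finset.sum_congr rfl fun g _ => ?_
          rw [Finset.sum_mul]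
          refine Finset.sum_congr rfl fun h _ => ?_
          simp only [ext, Prod.inv_mk]
          ring
        rw [h3, h2, mul_zero]
    intro g
    exact congrFun h1 g
  have hzero : ∀ g : G, (fun h : H => φ (g, h)) = 0 := by
    intro g
    apply IC.class_eq_zero
    · intro h y
      have := hφ.conj (g, h) (1, y)
      simp only [Prod.mk_mul_mk, Prod.inv_mk, one_mul, inv_one, mul_one] at this
      exact this
    · intro ψ hψ
      unfold IC.B
      have := hstep ψ hψ g
      simp only at this ⊢
      rw [this, mul_zero]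
  exact hφ.one_ne (congrFun (hzero 1) 1)

end Pool.Agent.R893.TP2
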