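import Pool.Agent.R893.TP2.Stm

/-!
# The normalizer of a product subgroup (project TP2, piece S_NORM)
-/

open scoped BigOperators Classical

noncomputable section

namespace Pool.Agent.R893.TP2

open Pool.Agent.H254R3.IN

theorem mem_NN_prod {G H : Type} [Group G] [Group H] (D : Subgroup G) (E : Subgroup H)
    (z : G × H) : z ∈ NN (D.prod E) ↔ z.1 ∈ NN D ∧ z.2 ∈ NN E := by
  constructor
  · intro hz
    rw [Subgroup.mem_normalizer_iff] at hz
    constructor
    · rw [Subgroup.mem_normalizer_iff]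
      intro g
      have := hz (g, 1)
      simpa [Subgroup.mem_prod] using this
    · rw [Subgroup.mem_normalizer_iff]
      intro h
      have := hz (1, h)
      simpa [Subgroup.mem_prod] using this
  · rintro ⟨h1, h2⟩
    rw [Subgroup.mem_normalizer_iff] at h1 h2 ⊢
    rintro ⟨g, h⟩
    have a1 := h1 g
    have a2 := h2 h
    simp only [Subgroup.mem_prod, Prod.fst_mul, Prod.snd_mul, Prod.fst_inv,
      Prod.snd_inv] at a1 a2 ⊢
    exact and_congr a1 a2

/-- The identification `N(D × E) = N(D) × N(E)`. -/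
def nEquiv {G H : Type} [Group G] [Group H] (D : Subgroup G) (E : Subgroup H) :
    NN (D.prod E) ≃* NN D × NN E where
  toFun z := (⟨z.1.1, ((mem_NN_prod D E z.1).1 z.2).1⟩, ⟨z.1.2, ((mem_NN_prod D E z.1).1 z.2).2⟩)
  invFun w := ⟨((w.1 : G), (w.2 : H)), (mem_NN_prod D E _).2 ⟨w.1.2, w.2.2⟩⟩
  left_inv _ := rfl
  right_inv _ := rfl
  map_mul' _ _ := rfl

theorem norm : S_NORM := by
  intro G H _ _ _ _ D E
  refine ⟨nEquiv D E, fun z => ⟨rfl, rfl⟩, ?_⟩
  ext z
  simp only [Subgroup.mem_subgroupOf, Subgroup.mem_comap, Subgroup.mem_prod]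
  exact Iff.rfl

end Pool.Agent.R893.TP2
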