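import Pool.Agent.R893.TP2.Stm

/-!
# External tensor products of irreducible characters are irreducible
-/

open scoped BigOperators Classical TensorProduct
open Representation

noncomputable section

namespace Pool.Agent.R893.TP2

open Pool.Agent.H254R3.IN

namespace IrrAux

variable {G H : Type} [Group G] [Group H]

/-- Schur: commuting operators are scalars -/
lemma schur {V : Type} [AddCommGroup V] [Module ℂ V] [FiniteDimensional ℂ V]
    (rho : Representation ℂ G V) (hirr : rho.IsIrreducible) (T : V →ₗ[ℂ] V)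
    (hcomm : ∀ (h : G) (v : V), T (rho h v) = rho h (T v)) : ∃ c : ℂ, T = c • LinearMap.id := by
  let T' : IntertwiningMap rho rho := T.intertwiningMap_of_isIntertwiningMap rho rho hcomm
  obtain ⟨c, hc⟩ := (Representation.IsIrreducible.algebraMap_intertwiningMap_bijective_of_isAlgClosed
    (ρ := rho)).2 T'
  refine ⟨c, ?_⟩
  ext v
  have := congrArg (fun S : IntertwiningMap rho rho => S v) hc
  have h2 : T' v = T v := rfl
  rw [← h2]
  exact this.symm

lemma irr_nontrivial {V : Type} [AddCommGroup V] [Module ℂ V] [FiniteDimensional ℂ V]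
    (rho : Representation ℂ G V) (hirr : rho.IsIrreducible) : Nontrivial V := by
  by_contra hn
  rw [not_nontrivial_iff_subsingleton] at hn
  have : Subsingleton (Subrepresentation rho) := by
    constructor
    intro a b
    ext x
    have : x = 0 := Subsingleton.elim _ _
    subst this
    simp
  have h5 := hirr.toNontrivial
  exact not_subsingleton (Subrepresentation rho) this

/-- averages of rank one operators -/
lemma avg [Fintype G] {V : Type} [AddCommGroup V] [Module ℂ V] [FiniteDimensional ℂ V]
    (rho : Representation ℂ G V) (hirr : rho.IsIrreducible) :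
    ∃ c : ℂ, c ≠ 0 ∧ ∀ (φ : V →ₗ[ℂ] ℂ) (x v : V),
      ∑ g, φ (rho g⁻¹ x) • rho g v = (c * φ v) • x := by
  have := irr_nontrivial rho hirr
  have hd : (Module.finrank ℂ V : ℂ) ≠ 0 := by
    have : 0 < Module.finrank ℂ V := Module.finrank_pos
    exact_mod_cast this.ne'
  have hG : (Fintype.card G : ℂ) ≠ 0 := by
    have : 0 < Fintype.card G := Fintype.card_pos
    exact_mod_cast this.ne'
  refine ⟨(Fintype.card G : ℂ) / Module.finrank ℂ V, div_ne_zero hG hd, fun φ x v => ?_⟩
  obtain ⟨T, hT⟩ : ∃ T : V →ₗ[ℂ] V, T = ∑ g, rho g ∘ₗ (φ.smulRight v) ∘ₗ rho g⁻¹ := ⟨_, rfl⟩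
  have hTx : ∀ x, T x = ∑ g, φ (rho g⁻¹ x) • rho g v := by
    intro x
    rw [hT, LinearMap.sum_apply]
    refine Finset.sum_congr rfl (fun g _ => ?_)
    simp
  have hcomm : ∀ (h : G) (x : V), T (rho h x) = rho h (T x) := by
    intro h x
    rw [hTx, hTx, map_sum]
    rw [← Equiv.sum_comp (Equiv.mulLeft h)]
    refine Finset.sum_congr rfl (fun g _ => ?_)
    rw [map_smul]
    simp only [Equiv.coe_mulLeft, mul_inv_rev, map_mul, Module.End.mul_apply]
    congr 2
    rw [← Module.End.mul_apply (rho h⁻¹), ← map_mul, inv_mul_cancel, map_one,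
      Module.End.one_apply]
  obtain ⟨c, hc⟩ := schur rho hirr T hcomm
  have htr : LinearMap.trace ℂ V T = (Fintype.card G : ℂ) * φ v := by
    rw [hT, map_sum]
    have : ∀ g : G, LinearMap.trace ℂ V (rho g ∘ₗ (φ.smulRight v) ∘ₗ rho g⁻¹) = φ v := by
      intro g
      rw [LinearMap.trace_comp_comm', LinearMap.comp_assoc]
      have h1 : rho g⁻¹ ∘ₗ rho g = LinearMap.id := by
        have : rho g⁻¹ * rho g = 1 := by rw [← map_mul, inv_mul_cancel, map_one]
        exact this
      rw [h1, LinearMap.comp_id]
      simp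
    rw [Finset.sum_congr rfl (fun g _ => this g), Finset.sum_const, Finset.card_univ,
      nsmul_eq_mul]
  have htr2 : LinearMap.trace ℂ V T = c * Module.finrank ℂ V := by
    rw [hc, map_smul, LinearMap.trace_id, smul_eq_mul]
  have hcv : (Fintype.card G : ℂ) / Module.finrank ℂ V * φ v = c := by
    rw [div_mul_eq_mul_div, div_eq_iff hd, ← htr, htr2]
  rw [← hTx, hcv, hc]
  simp

end IrrAux

open IrrAux

theorem irr : S_IRR := by
  intro G H _ _ _ _ χ ψ hχ hψ
  obtain ⟨V, _, _, _, ρ, hρ, rfl⟩ := hχ
  obtain ⟨W, _, _, _, σ, hσ, rfl⟩ := hψ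
  have := Fintype.ofFinite G
  have := irr_nontrivial ρ hρ
  have := irr_nontrivial σ hσ
  obtain ⟨τ, hτ⟩ : ∃ τ : Representation ℂ (G × H) (V ⊗[ℂ] W),
      τ = tprod (ρ.comp (MonoidHom.fst G H)) (σ.comp (MonoidHom.snd G H)) := ⟨_, rfl⟩
  have hτa : ∀ (g : G) (h : H) (v : V) (w : W), τ (g, h) (v ⊗ₜ w) = ρ g v ⊗ₜ σ h w := by
    intro g h v w
    rw [hτ]
    rfl
  obtain ⟨c, hc0, hc⟩ := avg ρ hρ
  refine ⟨V ⊗[ℂ] W, inferInstance, inferInstance, inferInstance, τ, ?_, ?_⟩
  swap
  · rw [hτ, char_tensor]
    rfl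
  -- the key
  have key : ∀ U : Subrepresentation τ, ∀ u ∈ U.toSubmodule, ∀ (φ : V →ₗ[ℂ] ℂ) (x : V),
      x ⊗ₜ[ℂ] (TensorProduct.lid ℂ W (φ.rTensor W u)) ∈ U.toSubmodule := by
    intro U u hu φ x
    have h1 : ∀ z : V ⊗[ℂ] W, ∑ g, φ (ρ g⁻¹ x) • τ (g, 1) z =
        c • (x ⊗ₜ[ℂ] (TensorProduct.lid ℂ W (φ.rTensor W z))) := by
      intro z
      induction z using TensorProduct.induction_on with
      | zero => simp
      | tmul v w =>
        have h2 : ∀ g : G, φ (ρ g⁻¹ x) • τ (g, 1) (v ⊗ₜ w) =
            (φ (ρ g⁻¹ x) • ρ g v) ⊗ₜ[ℂ] w := by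
          intro g
          rw [hτa, map_one, Module.End.one_apply, TensorProduct.smul_tmul']
        rw [Finset.sum_congr rfl (fun g _ => h2 g), ← TensorProduct.sum_tmul, hc]
        rw [LinearMap.rTensor_tmul, TensorProduct.lid_tmul, TensorProduct.tmul_smul,
          smul_smul, TensorProduct.smul_tmul']
      | add a b ha hb =>
        simp only [map_add, smul_add, TensorProduct.tmul_add, Finset.sum_add_distrib]
        rw [ha, hb]
    have h3 : ∑ g, φ (ρ g⁻¹ x) • τ (g, 1) u ∈ U.toSubmodule :=
      Submodule.sum_mem _ (fun g _ => Submodule.smul_mem _ _ (U.apply_mem_toSubmodule (g, 1) hu))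
    rw [h1 u] at h3
    exact (Submodule.smul_mem_iff _ hc0).1 h3
  have hbt : ∀ U : Subrepresentation τ, U = ⊥ ∨ U = ⊤ := by
    intro U
    by_cases hU : ∀ u ∈ U.toSubmodule, u = 0
    · left
      apply Subrepresentation.toSubmodule_injective
      exact (Submodule.eq_bot_iff _).2 hU
    · right
      push Not at hU
      obtain ⟨u, hu, hu0⟩ := hU
      -- a nonzero coordinate
      obtain ⟨i, hi⟩ : ∃ i, TensorProduct.equivFinsuppOfBasisLeft (N := W)
          (Module.finBasis ℂ V) u i ≠ 0 := by
        by_contra hcon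
        push Not at hcon
        apply hu0
        apply (TensorProduct.equivFinsuppOfBasisLeft (N := W) (Module.finBasis ℂ V)).injective
        rw [map_zero]
        exact Finsupp.ext hcon
      rw [TensorProduct.equivFinsuppOfBasisLeft_apply] at hi
      obtain ⟨N, hN⟩ : ∃ N : Subrepresentation σ, ∀ w : W, w ∈ N.toSubmodule ↔
          ∀ x : V, x ⊗ₜ[ℂ] w ∈ U.toSubmodule := by
        refine ⟨⟨{ carrier := {w | ∀ x : V, x ⊗ₜ[ℂ] w ∈ U.toSubmodule}
                   add_mem' := ?_
                   zero_mem' := ?_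
                   smul_mem' := ?_ }, ?_⟩, fun w => Iff.rfl⟩
        · intro a b ha hb x
          rw [TensorProduct.tmul_add]
          exact Submodule.add_mem _ (ha x) (hb x)
        · intro x
          rw [TensorProduct.tmul_zero]
          exact Submodule.zero_mem _
        · intro a b hb x
          rw [TensorProduct.tmul_smul]
          exact Submodule.smul_mem _ _ (hb x)
        · intro h w hw x
          have := U.apply_mem_toSubmodule (1, h) (hw x)
          rw [hτa, map_one, Module.End.one_apply] at this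
          exact this
      have hNt : N = ⊤ := by
        rcases hσ.eq_bot_or_eq_top N with h | h
        · exfalso
          have hw : TensorProduct.lid ℂ W
              (((Module.finBasis ℂ V).coord i).rTensor W u) ∈ N.toSubmodule :=
            (hN _).2 (fun x => key U u hu _ x)
          rw [h] at hw
          exact hi ((Submodule.mem_bot ℂ).1 hw)
        · exact h
      apply Subrepresentation.toSubmodule_injective
      refine (Submodule.eq_top_iff').2 (fun z => ?_)
      induction z using TensorProduct.induction_on with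
      | zero => exact Submodule.zero_mem _
      | tmul v w =>
        have : w ∈ N.toSubmodule := by
          rw [hNt]
          exact Submodule.mem_top
        exact (hN w).1 this v
      | add a b ha hb => exact Submodule.add_mem _ ha hb
  have hnt : Nontrivial (V ⊗[ℂ] W) := by
    apply Module.nontrivial_of_finrank_pos (R := ℂ)
    rw [Module.finrank_tensorProduct]
    exact Nat.mul_pos Module.finrank_pos Module.finrank_pos
  have hnt2 : Nontrivial (Subrepresentation τ) := by
    refine ⟨⊥, ⊤, fun h => ?_⟩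
    have h2 : (⊥ : Submodule ℂ (V ⊗[ℂ] W)) = ⊤ := congrArg Subrepresentation.toSubmodule h
    exact bot_ne_top h2
  exact { toNontrivial := hnt2, eq_bot_or_eq_top := hbt }

end Pool.Agent.R893.TP2

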