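import Pool.Agent.R893.TP2.Stm3
import Pool.Agent.Y63.AWC.Deg
import Pool.Agent.R893.TP2.Irr
import Pool.Agent.R893.TP2.Irrc
import Pool.Agent.R893.TP2.Inj

open scoped Classical

noncomputable section

namespace Pool.Agent.R893.TP2

open Pool.Agent.Y63.AWC Pool.Agent.H254R3.IN

/-- irreducible of defect zero -/
def DZc (p : ℕ) (G : Type) [Group G] (χ : G → ℂ) : Prop :=
  IsIrreducibleCharacter χ ∧
    ∃ n : ℕ, χ 1 = (n : ℂ) ∧ n.factorization p = (Nat.card G).factorization p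

theorem deg_le_v {G : Type} [Group G] [Finite G] {p : ℕ} {χ : G → ℂ} (h : IsIrr χ) {n : ℕ}
    (hn : χ 1 = (n : ℂ)) : n.factorization p ≤ (Nat.card G).factorization p ∧ n ≠ 0 := by
  have : Fintype G := Fintype.ofFinite G
  have h1 : n ∣ Nat.card G := deg_dvd h hn
  have h2 : Nat.card G ≠ 0 := Nat.card_pos.ne'
  have h3 : n ≠ 0 := fun h4 => h2 (by rw [h4] at h1; exact Nat.eq_zero_of_zero_dvd h1)
  exact ⟨(Nat.factorization_le_iff_dvd h3 h2).2 h1 p, h3⟩

theorem dzA : S_DZP := by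
  intro G H _ _ _ _ p hp
  unfold numDefectZero
  rw [← Nat.card_prod]
  symm
  have hcard : (Nat.card (G × H)).factorization p =
      (Nat.card G).factorization p + (Nat.card H).factorization p := by
    rw [Nat.card_prod, Nat.factorization_mul Nat.card_pos.ne' Nat.card_pos.ne']
    rfl
  let F : {χ : G → ℂ // DZc p G χ} × {ψ : H → ℂ // DZc p H ψ} → {φ : G × H → ℂ // DZc p (G × H) φ} :=
    fun q => ⟨ext q.1.1 q.2.1, irr G H _ _ q.1.2.1 q.2.2.1, by
      obtain ⟨n, hn, hv⟩ := q.1.2.2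
      obtain ⟨m, hm, hw⟩ := q.2.2.2
      refine ⟨n * m, ?_, ?_⟩
      · change q.1.1 1 * q.2.1 1 = _
        rw [hn, hm]; push_cast; rfl
      · have h1 := (deg_le_v (p := p) q.1.2.1 hn).2
        have h2 := (deg_le_v (p := p) q.2.2.1 hm).2
        rw [Nat.factorization_mul h1 h2, hcard, ← hv, ← hw]
        rfl⟩
  have hF : Function.Bijective F := by
    constructor
    · rintro ⟨⟨χ, hχ⟩, ⟨ψ, hψ⟩⟩ ⟨⟨χ', hχ'⟩, ⟨ψ', hψ'⟩⟩ h
      have h1 : ext χ ψ = ext χ' ψ' := congrArg Subtype.val h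
      obtain ⟨rfl, rfl⟩ := inj G H _ _ _ _ hχ.1 hχ'.1 hψ.1 hψ'.1 h1
      rfl
    · rintro ⟨φ, hφ, n, hn, hv⟩
      obtain ⟨χ, ψ, hχ, hψ, rfl⟩ := irrc irr G H φ hφ
      obtain ⟨a, ha0, ha⟩ := IsIrr.deg hχ
      obtain ⟨b, hb0, hb⟩ := IsIrr.deg hψ
      have e : n = a * b := by
        have : ((n : ℕ) : ℂ) = ((a * b : ℕ) : ℂ) := by
          rw [← hn]
          change χ 1 * ψ 1 = _
          rw [← ha, ← hb]; push_cast; rfl
        exact_mod_cast this
      subst e
      have h1 := (deg_le_v (p := p) hχ ha.symm).1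
      have h2 := (deg_le_v (p := p) hψ hb.symm).1
      rw [Nat.factorization_mul ha0.ne' hb0.ne', hcard] at hv
      have hv' : a.factorization p + b.factorization p =
        (Nat.card G).factorization p + (Nat.card H).factorization p := hv
      exact ⟨(⟨χ, hχ, a, ha.symm, by omega⟩, ⟨ψ, hψ, b, hb.symm, by omega⟩), rfl⟩
  exact Nat.card_congr (Equiv.ofBijective F hF)

end Pool.Agent.R893.TP2
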