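import Pool.Agent.R893.TP2.MainAM

open scoped BigOperators Classical

noncomputable section

namespace Pool.Agent.R893.TP2

open Pool.Agent.H254R3.IN

/-- `B` is a `p`-block, in the family `X`, of the group `G`, with nontrivial defect group `D`, and
`b` is its Brauer correspondent in `N_G(D)`. -/
def IsPair (p : ℕ) (O : ValuationSubring ℂ)
    (X : ∀ (G : Type) [Group G], Subgroup G → Set (G → ℂ) → Prop) (G : Type) [Group G]
    (D : Subgroup G) (B : Set (G → ℂ)) (b : Set (Subgroup.normalizer (D : Set G) → ℂ)) : Prop :=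
  X G D B ∧ IsBlock O B ∧ IsDefectGroup p O B D ∧ 1 < Nat.card D ∧
    IsBrauerCorrespondent p O D B b

/-- `|Irr_0(B)|` for a block `B` with defect group `D`. -/
def k0 (p : ℕ) {G : Type} [Group G] (D : Subgroup G) (B : Set (G → ℂ)) : ℕ :=
  Nat.card (Irr0 p D B)

/-- `|Irr_0(b)|` for the Brauer correspondent `b` in `N_G(D)`. -/
def k0N (p : ℕ) {G : Type} [Group G] (D : Subgroup G)
    (b : Set (Subgroup.normalizer (D : Set G) → ℂ)) : ℕ :=
  Nat.card (Irr0 p (D.subgroupOf (Subgroup.normalizer (D : Set G))) b)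

theorem pow_cast_sq (a k : ℕ) : ((a ^ 2 ^ k : ℕ) : ℝ) = (a : ℝ) ^ 2 ^ k := by push_cast; rfl

theorem one_le_rpow_card {G : Type} [Group G] [Finite G] {ε : ℝ} (hε : 0 < ε) :
    (1 : ℝ) ≤ (Nat.card G : ℝ) ^ ε := by
  apply Real.one_le_rpow _ hε.le
  exact_mod_cast Nat.card_pos (α := G)

theorem am_final (hblk : S_BLK) (hdef : S_DEF) (hnorm : S_NORM) (hbc : S_BC) (hk0 : S_K0)
    (hiso3 : S_ISO3) (p : ℕ) (hp : p.Prime) (O : ValuationSubring ℂ)
    (hO : (p : ℂ) ∈ O.nonunits)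
    (X : ∀ (G : Type) [Group G], Subgroup G → Set (G → ℂ) → Prop) (hX : SqClosed X) :
    ((∀ ε : ℝ, 0 < ε → ∃ C : ℝ, ∃ N : ℕ, ∀ (G : Type) [Group G] [Finite G] (D : Subgroup G)
        (B : Set (G → ℂ)) (b : Set (Subgroup.normalizer (D : Set G) → ℂ)), IsPair p O X G D B b →
        N ≤ Nat.card D → (k0 p D B : ℝ) ≤ C * (Nat.card G : ℝ) ^ ε * (k0N p D b : ℝ)) ↔
      (∀ (G : Type) [Group G] [Finite G] (D : Subgroup G)
        (B : Set (G → ℂ)) (b : Set (Subgroup.normalizer (D : Set G) → ℂ)), IsPair p O X G D B b →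
        k0 p D B ≤ k0N p D b)) ∧
    ((∀ ε : ℝ, 0 < ε → ∃ C : ℝ, ∃ N : ℕ, ∀ (G : Type) [Group G] [Finite G] (D : Subgroup G)
        (B : Set (G → ℂ)) (b : Set (Subgroup.normalizer (D : Set G) → ℂ)), IsPair p O X G D B b →
        N ≤ Nat.card D → (k0N p D b : ℝ) ≤ C * (Nat.card G : ℝ) ^ ε * (k0 p D B : ℝ)) ↔
      (∀ (G : Type) [Group G] [Finite G] (D : Subgroup G)
        (B : Set (G → ℂ)) (b : Set (Subgroup.normalizer (D : Set G) → ℂ)), IsPair p O X G D B b →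
        k0N p D b ≤ k0 p D B)) ∧
    ((∀ ε : ℝ, 0 < ε → ∃ C : ℝ, ∃ N : ℕ, ∀ (G : Type) [Group G] [Finite G] (D : Subgroup G)
        (B : Set (G → ℂ)) (b : Set (Subgroup.normalizer (D : Set G) → ℂ)), IsPair p O X G D B b →
        N ≤ Nat.card D → (k0 p D B : ℝ) ≤ C * (Nat.card G : ℝ) ^ ε * (k0N p D b : ℝ) ∧
          (k0N p D b : ℝ) ≤ C * (Nat.card G : ℝ) ^ ε * (k0 p D B : ℝ)) ↔
      (∀ (G : Type) [Group G] [Finite G] (D : Subgroup G)
        (B : Set (G → ℂ)) (b : Set (Subgroup.normalizer (D : Set G) → ℂ)), IsPair p O X G D B b →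
        k0 p D B = k0N p D b)) := by
  have key1 : (∀ ε : ℝ, 0 < ε → ∃ C : ℝ, ∃ N : ℕ, ∀ (G : Type) [Group G] [Finite G]
        (D : Subgroup G)
        (B : Set (G → ℂ)) (b : Set (Subgroup.normalizer (D : Set G) → ℂ)), IsPair p O X G D B b →
        N ≤ Nat.card D → (k0 p D B : ℝ) ≤ C * (Nat.card G : ℝ) ^ ε * (k0N p D b : ℝ)) →
      (∀ (G : Type) [Group G] [Finite G] (D : Subgroup G)
        (B : Set (G → ℂ)) (b : Set (Subgroup.normalizer (D : Set G) → ℂ)), IsPair p O X G D B b →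
        k0 p D B ≤ k0N p D b) := by
    intro h G iG fG D B b hP
    have := AMf_gap hblk hdef hnorm hbc hk0 hiso3 hp hO hX (fun a _ => (a : ℝ))
      (fun _ c => (c : ℝ)) (fun a c k => pow_cast_sq a k) (fun a c k => pow_cast_sq c k)
      (fun a c => Nat.cast_nonneg c) (g := Nat.card G) (d := Nat.card D)
      (a := k0 p D B) (c := k0N p D b) (by
        intro ε hε
        obtain ⟨C, N, hC⟩ := h ε hε
        refine ⟨C, max N 2, ?_⟩
        rintro g d a c ⟨G', iG', fG', D', B', b', hXG, hB, hD, hb, rfl, rfl, rfl, rfl⟩ hd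
        exact hC G' D' B' b' ⟨hXG, hB, hD, lt_of_lt_of_le one_lt_two ((le_max_right _ _).trans hd),
          hb⟩ ((le_max_left _ _).trans hd))
      ⟨G, iG, fG, D, B, b, hP.1, hP.2.1, hP.2.2.1, hP.2.2.2.2, rfl, rfl, rfl, rfl⟩ hP.2.2.2.1
    exact_mod_cast this
  have key2 : (∀ ε : ℝ, 0 < ε → ∃ C : ℝ, ∃ N : ℕ, ∀ (G : Type) [Group G] [Finite G]
        (D : Subgroup G)
        (B : Set (G → ℂ)) (b : Set (Subgroup.normalizer (D : Set G) → ℂ)), IsPair p O X G D B b →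
        N ≤ Nat.card D → (k0N p D b : ℝ) ≤ C * (Nat.card G : ℝ) ^ ε * (k0 p D B : ℝ)) →
      (∀ (G : Type) [Group G] [Finite G] (D : Subgroup G)
        (B : Set (G → ℂ)) (b : Set (Subgroup.normalizer (D : Set G) → ℂ)), IsPair p O X G D B b →
        k0N p D b ≤ k0 p D B) := by
    intro h G iG fG D B b hP
    have := AMf_gap hblk hdef hnorm hbc hk0 hiso3 hp hO hX (fun _ c => (c : ℝ))
      (fun a _ => (a : ℝ)) (fun a c k => pow_cast_sq c k) (fun a c k => pow_cast_sq a k)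
      (fun a c => Nat.cast_nonneg a) (g := Nat.card G) (d := Nat.card D)
      (a := k0 p D B) (c := k0N p D b) (by
        intro ε hε
        obtain ⟨C, N, hC⟩ := h ε hε
        refine ⟨C, max N 2, ?_⟩
        rintro g d a c ⟨G', iG', fG', D', B', b', hXG, hB, hD, hb, rfl, rfl, rfl, rfl⟩ hd
        exact hC G' D' B' b' ⟨hXG, hB, hD, lt_of_lt_of_le one_lt_two ((le_max_right _ _).trans hd),
          hb⟩ ((le_max_left _ _).trans hd))
      ⟨G, iG, fG, D, B, b, hP.1, hP.2.1, hP.2.2.1, hP.2.2.2.2, rfl, rfl, rfl, rfl⟩ hP.2.2.2.1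
    exact_mod_cast this
  have trivial_dir : ∀ (G : Type) [Group G] [Finite G] (ε : ℝ), 0 < ε → ∀ x y : ℕ, x ≤ y →
      (x : ℝ) ≤ 1 * (Nat.card G : ℝ) ^ ε * (y : ℝ) := by
    intro G _ _ ε hε x y hxy
    have h1 := one_le_rpow_card (G := G) hε
    have h2 : (x : ℝ) ≤ y := by exact_mod_cast hxy
    have h3 : (0 : ℝ) ≤ y := Nat.cast_nonneg y
    nlinarith
  refine ⟨⟨key1, fun h ε hε => ⟨1, 0, fun G _ _ D B b hP _ => trivial_dir G ε hε _ _ (h G D B b hP)⟩⟩,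
    ⟨key2, fun h ε hε => ⟨1, 0, fun G _ _ D B b hP _ => trivial_dir G ε hε _ _ (h G D B b hP)⟩⟩,
    ⟨fun h G _ _ D B b hP => le_antisymm
      (key1 (fun ε hε => by
        obtain ⟨C, N, hC⟩ := h ε hε
        exact ⟨C, N, fun G _ _ D B b hP hN => (hC G D B b hP hN).1⟩) G D B b hP)
      (key2 (fun ε hε => by
        obtain ⟨C, N, hC⟩ := h ε hε
        exact ⟨C, N, fun G _ _ D B b hP hN => (hC G D B b hP hN).2⟩) G D B b hP),
    fun h ε hε => ⟨1, 0, fun G _ _ D B b hP _ =>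
      ⟨trivial_dir G ε hε _ _ (h G D B b hP).le, trivial_dir G ε hε _ _ (h G D B b hP).ge⟩⟩⟩⟩

theorem kb_final (hblk : S_BLK) (hdef : S_DEF) (hkb : S_KB) (p : ℕ) (hp : p.Prime)
    (O : ValuationSubring ℂ) (hO : (p : ℂ) ∈ O.nonunits)
    (X : ∀ (G : Type) [Group G], Subgroup G → Set (G → ℂ) → Prop) (hX : SqClosed X) (α : ℝ) :
    (∀ ε : ℝ, 0 < ε → ∃ C : ℝ, ∃ N : ℕ, ∀ (G : Type) [Group G] [Finite G] (D : Subgroup G)
        (B : Set (G → ℂ)), X G D B → IsBlock O B → IsDefectGroup p O B D → 1 < Nat.card D →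
        N ≤ Nat.card D →
        (Nat.card B : ℝ) ≤ C * (Nat.card G : ℝ) ^ ε * (Nat.card D : ℝ) ^ α) ↔
      (∀ (G : Type) [Group G] [Finite G] (D : Subgroup G)
        (B : Set (G → ℂ)), X G D B → IsBlock O B → IsDefectGroup p O B D → 1 < Nat.card D →
        (Nat.card B : ℝ) ≤ (Nat.card D : ℝ) ^ α) := by
  constructor
  · intro h G iG fG D B hXG hB hD h1
    apply KBf_gap hblk hdef hkb hp hO hX α (g := Nat.card G) (d := Nat.card D)
      (a := Nat.card B) _ ⟨G, iG, fG, D, B, hXG, hB, hD, rfl, rfl, rfl⟩ h1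
    intro ε hε
    obtain ⟨C, N, hC⟩ := h ε hε
    refine ⟨C, max N 2, ?_⟩
    rintro g d a ⟨G', iG', fG', D', B', hXG, hB, hD, rfl, rfl, rfl⟩ hd
    exact hC G' D' B' hXG hB hD (lt_of_lt_of_le one_lt_two ((le_max_right _ _).trans hd))
      ((le_max_left _ _).trans hd)
  · intro h ε hε
    refine ⟨1, 0, fun G _ _ D B hXG hB hD h1 _ => ?_⟩
    have h2 := h G D B hXG hB hD h1
    have h3 := one_le_rpow_card (G := G) hε
    have h4 : (0 : ℝ) ≤ (Nat.card D : ℝ) ^ α := by positivity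
    nlinarith

end Pool.Agent.R893.TP2
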