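import Pool.Agent.R893.TP2.Stm3
import Pool.Agent.R893.TP2.FinAM

open scoped Classical

noncomputable section

namespace Pool.Agent.R893.TP2

open Pool.Agent.Y63.AWC

/-- Data: a nontrivial group in `X` of order `g` with `a` weights and `c` classes of `p`-regular
elements. -/
def AWd (p : ℕ) (X : ∀ (G : Type) [Group G], Prop) (g a c : ℕ) : Prop :=
  ∃ (G : Type) (_ : Group G) (_ : Finite G), X G ∧ Nat.card G = g ∧ numWeights p G = a ∧
    numRegularClasses p G = c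

theorem AWd_sq (hwt : S_WTP) (hreg : S_REGP) {p : ℕ} (hp : p.Prime)
    {X : ∀ (G : Type) [Group G], Prop} (hX : ∀ (G : Type) [Group G], X G → X (G × G))
    {g a c : ℕ} (h : AWd p X g a c) : AWd p X (g * g) (a * a) (c * c) := by
  obtain ⟨G, iG, fG, hXG, hg, ha, hc⟩ := h
  refine ⟨G × G, inferInstance, inferInstance, hX G hXG, ?_, ?_, ?_⟩
  · rw [Nat.card_prod, hg]
  · rw [hwt G G p hp, ha]
  · rw [hreg G G p hp, hc]

theorem AWd_gap (hwt : S_WTP) (hreg : S_REGP) {p : ℕ} (hp : p.Prime)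
    {X : ∀ (G : Type) [Group G], Prop} (hX : ∀ (G : Type) [Group G], X G → X (G × G))
    (F : ℕ → ℕ → ℝ) (F' : ℕ → ℕ → ℝ) (hF : ∀ a c k : ℕ, F (a ^ 2 ^ k) (c ^ 2 ^ k) = F a c ^ 2 ^ k)
    (hF' : ∀ a c k : ℕ, F' (a ^ 2 ^ k) (c ^ 2 ^ k) = F' a c ^ 2 ^ k)
    (hF'0 : ∀ a c, 0 ≤ F' a c)
    (h : ∀ ε : ℝ, 0 < ε → ∃ C : ℝ, ∃ N : ℕ, ∀ g a c : ℕ, AWd p X g a c → N ≤ g →
      F a c ≤ C * (g : ℝ) ^ ε * F' a c)
    {g a c : ℕ} (h0 : AWd p X g a c) (hd : 1 < g) : F a c ≤ F' a c := by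
  have hg : 0 < g := by omega
  apply amp hg hd (hF'0 a c)
  intro ε hε
  obtain ⟨C, N, hC⟩ := h ε hε
  refine ⟨C, N, fun k hk => ?_⟩
  have := hC _ _ _ (iter3 (P := AWd p X)
    (fun g a c h => AWd_sq hwt hreg hp hX h) h0 k) hk
  rw [hF, hF'] at this
  exact this

theorem awc_final (hwt : S_WTP) (hreg : S_REGP) (p : ℕ) (hp : p.Prime)
    (X : ∀ (G : Type) [Group G], Prop) (hX : ∀ (G : Type) [Group G], X G → X (G × G)) :
    ((∀ ε : ℝ, 0 < ε → ∃ C : ℝ, ∃ N : ℕ, ∀ (G : Type) [Group G] [Finite G], X G →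
        N ≤ Nat.card G →
        (numWeights p G : ℝ) ≤ C * (Nat.card G : ℝ) ^ ε * (numRegularClasses p G : ℝ)) ↔
      (∀ (G : Type) [Group G] [Finite G], X G → 1 < Nat.card G →
        numWeights p G ≤ numRegularClasses p G)) ∧
    ((∀ ε : ℝ, 0 < ε → ∃ C : ℝ, ∃ N : ℕ, ∀ (G : Type) [Group G] [Finite G], X G →
        N ≤ Nat.card G →
        (numRegularClasses p G : ℝ) ≤ C * (Nat.card G : ℝ) ^ ε * (numWeights p G : ℝ)) ↔
      (∀ (G : Type) [Group G] [Finite G], X G → 1 < Nat.card G →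
        numRegularClasses p G ≤ numWeights p G)) ∧
    ((∀ ε : ℝ, 0 < ε → ∃ C : ℝ, ∃ N : ℕ, ∀ (G : Type) [Group G] [Finite G], X G →
        N ≤ Nat.card G →
        (numWeights p G : ℝ) ≤ C * (Nat.card G : ℝ) ^ ε * (numRegularClasses p G : ℝ) ∧
        (numRegularClasses p G : ℝ) ≤ C * (Nat.card G : ℝ) ^ ε * (numWeights p G : ℝ)) ↔
      (∀ (G : Type) [Group G] [Finite G], X G → 1 < Nat.card G →
        numWeights p G = numRegularClasses p G)) := by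
  have key1 : (∀ ε : ℝ, 0 < ε → ∃ C : ℝ, ∃ N : ℕ, ∀ (G : Type) [Group G] [Finite G], X G →
        N ≤ Nat.card G →
        (numWeights p G : ℝ) ≤ C * (Nat.card G : ℝ) ^ ε * (numRegularClasses p G : ℝ)) →
      (∀ (G : Type) [Group G] [Finite G], X G → 1 < Nat.card G →
        numWeights p G ≤ numRegularClasses p G) := by
    intro h G iG fG hXG h1
    have := AWd_gap hwt hreg hp hX (fun a _ => (a : ℝ))
      (fun _ c => (c : ℝ)) (fun a c k => pow_cast_sq a k) (fun a c k => pow_cast_sq c k)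
      (fun a c => Nat.cast_nonneg c) (by
        intro ε hε
        obtain ⟨C, N, hC⟩ := h ε hε
        refine ⟨C, N, ?_⟩
        rintro g a c ⟨G', iG', fG', hXG', rfl, rfl, rfl⟩ hd
        exact hC G' hXG' hd) ⟨G, iG, fG, hXG, rfl, rfl, rfl⟩ h1
    exact_mod_cast this
  have key2 : (∀ ε : ℝ, 0 < ε → ∃ C : ℝ, ∃ N : ℕ, ∀ (G : Type) [Group G] [Finite G], X G →
        N ≤ Nat.card G →
        (numRegularClasses p G : ℝ) ≤ C * (Nat.card G : ℝ) ^ ε * (numWeights p G : ℝ)) →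
      (∀ (G : Type) [Group G] [Finite G], X G → 1 < Nat.card G →
        numRegularClasses p G ≤ numWeights p G) := by
    intro h G iG fG hXG h1
    have := AWd_gap hwt hreg hp hX (fun _ c => (c : ℝ))
      (fun a _ => (a : ℝ)) (fun a c k => pow_cast_sq c k) (fun a c k => pow_cast_sq a k)
      (fun a c => Nat.cast_nonneg a) (by
        intro ε hε
        obtain ⟨C, N, hC⟩ := h ε hε
        refine ⟨C, N, ?_⟩
        rintro g a c ⟨G', iG', fG', hXG', rfl, rfl, rfl⟩ hd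
        exact hC G' hXG' hd) ⟨G, iG, fG, hXG, rfl, rfl, rfl⟩ h1
    exact_mod_cast this
  have trivial_dir : ∀ (G : Type) [Group G] [Finite G] (ε : ℝ), 0 < ε → ∀ x y : ℕ, x ≤ y →
      (x : ℝ) ≤ 1 * (Nat.card G : ℝ) ^ ε * (y : ℝ) := by
    intro G _ _ ε hε x y hxy
    have h1 := one_le_rpow_card (G := G) hε
    have h2 : (x : ℝ) ≤ y := by exact_mod_cast hxy
    have h3 : (0 : ℝ) ≤ y := Nat.cast_nonneg y
    nlinarith
  refine ⟨⟨key1, fun h ε hε => ⟨1, 2, fun G _ _ hXG hN =>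
      trivial_dir G ε hε _ _ (h G hXG hN)⟩⟩,
    ⟨key2, fun h ε hε => ⟨1, 2, fun G _ _ hXG hN => trivial_dir G ε hε _ _ (h G hXG hN)⟩⟩,
    ⟨fun h G _ _ hXG h1 => le_antisymm
      (key1 (fun ε hε => by
        obtain ⟨C, N, hC⟩ := h ε hε
        exact ⟨C, N, fun G _ _ hXG hN => (hC G hXG hN).1⟩) G hXG h1)
      (key2 (fun ε hε => by
        obtain ⟨C, N, hC⟩ := h ε hε
        exact ⟨C, N, fun G _ _ hXG hN => (hC G hXG hN).2⟩) G hXG h1),
    fun h ε hε => ⟨1, 2, fun G _ _ hXG hN =>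
      ⟨trivial_dir G ε hε _ _ (h G hXG hN).le, trivial_dir G ε hε _ _ (h G hXG hN).ge⟩⟩⟩⟩

end Pool.Agent.R893.TP2
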