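import Pool.Agent.R893.TP2.Stm3
import Pool.Agent.R893.TP2.Norm

open scoped Classical

noncomputable section

namespace Pool.Agent.R893.TP2

open Pool.Agent.Y63.AWC

theorem locA (hdz : S_DZP) : S_LOCP := by
  intro G H _ _ _ _ p Q R hp
  obtain ⟨e, he, he2⟩ := norm G H Q R
  let A := Q.subgroupOf (NN Q)
  let B := R.subgroupOf (NN R)
  let f : NN (Q.prod R) →* (NN Q ⧸ A) × (NN R ⧸ B) :=
    (MonoidHom.prodMap (QuotientGroup.mk' A) (QuotientGroup.mk' B)).comp e.toMonoidHom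
  have hf : Function.Surjective f := by
    rintro ⟨x, y⟩
    obtain ⟨x', rfl⟩ := QuotientGroup.mk'_surjective A x
    obtain ⟨y', rfl⟩ := QuotientGroup.mk'_surjective B y
    refine ⟨e.symm (x', y'), ?_⟩
    simp [f]
  have hk : f.ker = (Q.prod R).subgroupOf (NN (Q.prod R)) := by
    rw [he2]
    ext z
    rw [MonoidHom.mem_ker, Subgroup.mem_comap, Subgroup.mem_prod]
    have h1 : f z = ((QuotientGroup.mk' A) (e z).1, (QuotientGroup.mk' B) (e z).2) := rfl
    rw [h1, Prod.mk_eq_one]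
    have h2 : (QuotientGroup.mk' A) (e z).1 = 1 ↔ (e z).1 ∈ A := QuotientGroup.eq_one_iff _
    have h3 : (QuotientGroup.mk' B) (e z).2 = 1 ↔ (e z).2 ∈ B := QuotientGroup.eq_one_iff _
    rw [h2, h3]
    rfl
  have e2 : (NN (Q.prod R) ⧸ (Q.prod R).subgroupOf (NN (Q.prod R))) ≃*
      (NN Q ⧸ A) × (NN R ⧸ B) :=
    (QuotientGroup.quotientMulEquivOfEq hk.symm).trans
      (QuotientGroup.quotientKerEquivOfSurjective f hf)
  unfold loc
  rw [numDefectZero_congr e2, hdz _ _ p hp]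

end Pool.Agent.R893.TP2
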