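import Mathlib

namespace Pool.Agent.R893.TP2

theorem real_gen (A B g : ℝ) (hB : 0 ≤ B) (hg : 1 ≤ g)
    (h : ∀ ε : ℝ, 0 < ε → ∃ C : ℝ, ∃ k₀ : ℕ, ∀ k : ℕ, k₀ ≤ k →
      A ^ 2 ^ k ≤ C * (g ^ 2 ^ k) ^ ε * B ^ 2 ^ k) :
    A ≤ B := by
  by_contra hlt
  push Not at hlt
  have hApos : 0 < A := lt_of_le_of_lt hB hlt
  rcases hB.eq_or_lt with hB0 | hBpos
  · obtain ⟨C, k₀, hC⟩ := h 1 one_pos
    have h1 := hC k₀ le_rfl
    rw [← hB0, zero_pow (by positivity), mul_zero] at h1
    have : 0 < A ^ 2 ^ k₀ := by positivity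
    linarith
  · have hgpos : 0 < g := by linarith
    set L := Real.log (A / B) with hL
    have hLpos : 0 < L := Real.log_pos (by rw [lt_div_iff₀ hBpos]; linarith)
    set M := Real.log g with hM
    have hMnn : 0 ≤ M := Real.log_nonneg hg
    have hε : 0 < L / (2 * (M + 1)) := by positivity
    obtain ⟨C, k₀, hC⟩ := h _ hε
    obtain ⟨k₁, hk₁⟩ := exists_nat_gt (C * 2 / L)
    obtain ⟨k, hkk, hk⟩ : ∃ k : ℕ, k₀ ≤ k ∧ C * 2 / L < k :=
      ⟨max k₀ k₁, le_max_left _ _, hk₁.trans_le (by exact_mod_cast le_max_right _ _)⟩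
    have h1 := hC k hkk
    have hrA : A ^ 2 ^ k = Real.exp (2 ^ k * Real.log A) := by
      rw [← Real.exp_log hApos, ← Real.exp_nat_mul, Real.log_exp]; push_cast; rfl
    have hrB : B ^ 2 ^ k = Real.exp (2 ^ k * Real.log B) := by
      rw [← Real.exp_log hBpos, ← Real.exp_nat_mul, Real.log_exp]; push_cast; rfl
    have hrg : (g ^ 2 ^ k) ^ (L / (2 * (M + 1))) = Real.exp (2 ^ k * M * (L / (2 * (M + 1)))) := by
      rw [Real.rpow_def_of_pos (by positivity), Real.log_pow]; push_cast; rfl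
    rw [hrA, hrB, hrg] at h1
    have hLe : L = Real.log A - Real.log B := Real.log_div hApos.ne' hBpos.ne'
    have h2 : Real.exp (2 ^ k * L) ≤ C * Real.exp (2 ^ k * M * (L / (2 * (M + 1)))) := by
      have : Real.exp (2 ^ k * L) = Real.exp (2 ^ k * Real.log A) / Real.exp (2 ^ k * Real.log B) := by
        rw [← Real.exp_sub, hLe]; ring_nf
      rw [this, div_le_iff₀ (Real.exp_pos _)]
      exact h1
    have hCpos : 0 < C := by
      by_contra hc
      push Not at hc
      have := Real.exp_pos (2 ^ k * L)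
      nlinarith [Real.exp_pos (2 ^ k * M * (L / (2 * (M + 1))))]
    have h3 : 2 ^ k * M * (L / (2 * (M + 1))) ≤ 2 ^ k * L / 2 := by
      have : M * (L / (2 * (M + 1))) ≤ L / 2 := by
        rw [mul_div_assoc', div_le_div_iff₀ (by positivity) (by positivity)]
        nlinarith
      have h2k : (0:ℝ) ≤ 2 ^ k := by positivity
      nlinarith
    have h4 : Real.exp (2 ^ k * L) ≤ C * Real.exp (2 ^ k * L / 2) :=
      h2.trans (mul_le_mul_of_nonneg_left (Real.exp_le_exp.mpr h3) hCpos.le)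
    have h5 : Real.exp (2 ^ k * L / 2) ≤ C := by
      have : Real.exp (2 ^ k * L) = Real.exp (2 ^ k * L / 2) * Real.exp (2 ^ k * L / 2) := by
        rw [← Real.exp_add]; ring_nf
      rw [this] at h4
      exact le_of_mul_le_mul_right h4 (Real.exp_pos _)
    have h6 : 2 ^ k * L / 2 + 1 ≤ C := (Real.add_one_le_exp _).trans h5
    have h7 : (k : ℝ) ≤ 2 ^ k := by
      exact_mod_cast (Nat.lt_two_pow_self (n := k)).le
    have h8 : C * 2 / L * L = C * 2 := by field_simp
    have h9 : C * 2 < k * L := by rw [← h8]; exact mul_lt_mul_of_pos_right hk hLpos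
    nlinarith

end Pool.Agent.R893.TP2
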