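import Pool.Agent.R893.TP2.Stm
import Pool.Agent.R893.TP2.RealGen

open scoped BigOperators Classical

noncomputable section

namespace Pool.Agent.R893.TP2

open Pool.Agent.H254R3.IN

/-- The family `X` of (group, subgroup, set of functions) is closed under tensor squares. -/
def SqClosed (X : ∀ (G : Type) [Group G], Subgroup G → Set (G → ℂ) → Prop) : Prop :=
  ∀ (G : Type) [Group G] (D : Subgroup G) (B : Set (G → ℂ)),
    X G D B → X (G × G) (D.prod D) (extSet B B)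

def AMf (p : ℕ) (O : ValuationSubring ℂ)
    (X : ∀ (G : Type) [Group G], Subgroup G → Set (G → ℂ) → Prop) (g d a c : ℕ) : Prop :=
  ∃ (G : Type) (_ : Group G) (_ : Finite G) (D : Subgroup G) (B : Set (G → ℂ))
    (b : Set (NN D → ℂ)), X G D B ∧ IsBlock O B ∧ IsDefectGroup p O B D ∧
      IsBrauerCorrespondent p O D B b ∧ Nat.card G = g ∧ Nat.card D = d ∧
      Nat.card (Irr0 p D B) = a ∧ Nat.card (Irr0 p (D.subgroupOf (NN D)) b) = c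

def KBf (p : ℕ) (O : ValuationSubring ℂ)
    (X : ∀ (G : Type) [Group G], Subgroup G → Set (G → ℂ) → Prop) (g d a : ℕ) : Prop :=
  ∃ (G : Type) (_ : Group G) (_ : Finite G) (D : Subgroup G) (B : Set (G → ℂ)),
    X G D B ∧ IsBlock O B ∧ IsDefectGroup p O B D ∧ Nat.card G = g ∧ Nat.card D = d ∧
      Nat.card B = a

theorem card_prodSub {G H : Type} [Group G] [Group H] (D : Subgroup G) (E : Subgroup H) :
    Nat.card (D.prod E) = Nat.card D * Nat.card E := by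
  rw [← Nat.card_prod]
  exact Nat.card_congr (Subgroup.prodEquiv D E).toEquiv

theorem AMf_sq (hblk : S_BLK) (hdef : S_DEF) (hnorm : S_NORM) (hbc : S_BC) (hk0 : S_K0)
    (hiso3 : S_ISO3) {p : ℕ} (hp : p.Prime) {O : ValuationSubring ℂ}
    (hO : (p : ℂ) ∈ O.nonunits)
    {X : ∀ (G : Type) [Group G], Subgroup G → Set (G → ℂ) → Prop} (hX : SqClosed X)
    {g d a c : ℕ} (h : AMf p O X g d a c) : AMf p O X (g * g) (d * d) (a * a) (c * c) := by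
  obtain ⟨G, iG, fG, D, B, b, hXG, hB, hD, hb, hg, hd, ha, hc⟩ := h
  obtain ⟨e, he, he2⟩ := hnorm G G D D
  refine ⟨G × G, inferInstance, inferInstance, D.prod D, extSet B B, pb e (extSet b b),
    hX G D B hXG, hblk G G O B B hB hB, hdef G G p O B B D D hp hO hB hB hD hD,
    hbc G G p O B B D D b b e hp hO he hB hB hb hb, ?_, ?_, ?_, ?_⟩
  · rw [Nat.card_prod, hg]
  · rw [card_prodSub, hd]
  · rw [hk0 G G p O B B D D hp hO hB hB hD hD, ha]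
  · rw [he2, hiso3 (NN D × NN D) (NN (D.prod D)) e p _ _,
      hk0 (NN D) (NN D) p O b b _ _ hp hO hb.1 hb.1 hb.2.1 hb.2.1, hc]

theorem KBf_sq (hblk : S_BLK) (hdef : S_DEF) (hkb : S_KB) {p : ℕ} (hp : p.Prime)
    {O : ValuationSubring ℂ} (hO : (p : ℂ) ∈ O.nonunits)
    {X : ∀ (G : Type) [Group G], Subgroup G → Set (G → ℂ) → Prop} (hX : SqClosed X)
    {g d a : ℕ} (h : KBf p O X g d a) : KBf p O X (g * g) (d * d) (a * a) := by
  obtain ⟨G, iG, fG, D, B, hXG, hB, hD, hg, hd, ha⟩ := h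
  refine ⟨G × G, inferInstance, inferInstance, D.prod D, extSet B B,
    hX G D B hXG, hblk G G O B B hB hB, hdef G G p O B B D D hp hO hB hB hD hD, ?_, ?_, ?_⟩
  · rw [Nat.card_prod, hg]
  · rw [card_prodSub, hd]
  · rw [hkb G G O B B hB hB, ha]

theorem pow_sq (x k : ℕ) : x ^ 2 ^ (k + 1) = x ^ 2 ^ k * x ^ 2 ^ k := by
  rw [pow_succ, pow_mul, sq]

theorem iter4 {P : ℕ → ℕ → ℕ → ℕ → Prop}
    (h : ∀ g d a c, P g d a c → P (g * g) (d * d) (a * a) (c * c)) {g d a c : ℕ}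
    (h0 : P g d a c) (k : ℕ) : P (g ^ 2 ^ k) (d ^ 2 ^ k) (a ^ 2 ^ k) (c ^ 2 ^ k) := by
  induction k with
  | zero => simpa using h0
  | succ k ih => simp only [pow_sq]; exact h _ _ _ _ ih

theorem iter3 {P : ℕ → ℕ → ℕ → Prop}
    (h : ∀ g d a, P g d a → P (g * g) (d * d) (a * a)) {g d a : ℕ}
    (h0 : P g d a) (k : ℕ) : P (g ^ 2 ^ k) (d ^ 2 ^ k) (a ^ 2 ^ k) := by
  induction k with
  | zero => simpa using h0
  | succ k ih => simp only [pow_sq]; exact h _ _ _ ih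

theorem le_pow_pow {d : ℕ} (hd : 1 < d) {N k : ℕ} (hk : N ≤ k) : N ≤ d ^ 2 ^ k := by
  calc N ≤ k := hk
    _ ≤ 2 ^ k := Nat.lt_two_pow_self.le
    _ ≤ 2 ^ 2 ^ k := Nat.lt_two_pow_self.le
    _ ≤ d ^ 2 ^ k := Nat.pow_le_pow_left hd _

/-- Amplification: an approximate inequality along the sequence of tensor powers is exact. -/
theorem amp {g d : ℕ} (hg : 0 < g) (hd : 1 < d) {A B : ℝ} (hB : 0 ≤ B)
    (h : ∀ ε : ℝ, 0 < ε → ∃ C : ℝ, ∃ N : ℕ, ∀ k : ℕ, N ≤ d ^ 2 ^ k →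
      A ^ 2 ^ k ≤ C * ((g ^ 2 ^ k : ℕ) : ℝ) ^ ε * B ^ 2 ^ k) : A ≤ B := by
  apply real_gen A B g hB (by exact_mod_cast hg)
  intro ε hε
  obtain ⟨C, N, hC⟩ := h ε hε
  refine ⟨C, N, fun k hk => ?_⟩
  have := hC k (le_pow_pow hd hk)
  rw [Nat.cast_pow] at this
  exact this

theorem AMf_gap (hblk : S_BLK) (hdef : S_DEF) (hnorm : S_NORM) (hbc : S_BC) (hk0 : S_K0)
    (hiso3 : S_ISO3) {p : ℕ} (hp : p.Prime) {O : ValuationSubring ℂ}
    (hO : (p : ℂ) ∈ O.nonunits)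
    {X : ∀ (G : Type) [Group G], Subgroup G → Set (G → ℂ) → Prop} (hX : SqClosed X)
    (F : ℕ → ℕ → ℝ) (F' : ℕ → ℕ → ℝ) (hF : ∀ a c k : ℕ, F (a ^ 2 ^ k) (c ^ 2 ^ k) = F a c ^ 2 ^ k)
    (hF' : ∀ a c k : ℕ, F' (a ^ 2 ^ k) (c ^ 2 ^ k) = F' a c ^ 2 ^ k)
    (hF'0 : ∀ a c, 0 ≤ F' a c)
    (h : ∀ ε : ℝ, 0 < ε → ∃ C : ℝ, ∃ N : ℕ, ∀ g d a c : ℕ, AMf p O X g d a c → N ≤ d →
      F a c ≤ C * (g : ℝ) ^ ε * F' a c)
    {g d a c : ℕ} (h0 : AMf p O X g d a c) (hd : 1 < d) : F a c ≤ F' a c := by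
  have hg : 0 < g := by
    obtain ⟨G, iG, fG, D, B, b, hXG, hB, hD, hb, hg, -⟩ := h0
    rw [← hg]; exact Nat.card_pos
  apply amp hg hd (hF'0 a c)
  intro ε hε
  obtain ⟨C, N, hC⟩ := h ε hε
  refine ⟨C, N, fun k hk => ?_⟩
  have := hC _ _ _ _ (iter4 (P := AMf p O X)
    (fun g d a c h => AMf_sq hblk hdef hnorm hbc hk0 hiso3 hp hO hX h) h0 k) hk
  rw [hF, hF'] at this
  exact this

theorem KBf_gap (hblk : S_BLK) (hdef : S_DEF) (hkb : S_KB) {p : ℕ} (hp : p.Prime)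
    {O : ValuationSubring ℂ} (hO : (p : ℂ) ∈ O.nonunits)
    {X : ∀ (G : Type) [Group G], Subgroup G → Set (G → ℂ) → Prop} (hX : SqClosed X) (α : ℝ)
    (h : ∀ ε : ℝ, 0 < ε → ∃ C : ℝ, ∃ N : ℕ, ∀ g d a : ℕ, KBf p O X g d a → N ≤ d →
      (a : ℝ) ≤ C * (g : ℝ) ^ ε * (d : ℝ) ^ α)
    {g d a : ℕ} (h0 : KBf p O X g d a) (hd : 1 < d) : (a : ℝ) ≤ (d : ℝ) ^ α := by
  have hg : 0 < g := by
    obtain ⟨G, iG, fG, D, B, hXG, hB, hD, hg, -⟩ := h0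
    rw [← hg]; exact Nat.card_pos
  apply amp hg hd (by positivity)
  intro ε hε
  obtain ⟨C, N, hC⟩ := h ε hε
  refine ⟨C, N, fun k hk => ?_⟩
  have := hC _ _ _ (iter3 (P := KBf p O X)
    (fun g d a h => KBf_sq hblk hdef hkb hp hO hX h) h0 k) hk
  have h2 : ((d ^ 2 ^ k : ℕ) : ℝ) ^ α = ((d : ℝ) ^ α) ^ 2 ^ k := by
    rw [Nat.cast_pow, ← Real.rpow_natCast, ← Real.rpow_natCast, ← Real.rpow_mul (by positivity),
      ← Real.rpow_mul (by positivity), mul_comm]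
  rw [h2, Nat.cast_pow] at this
  exact this

end Pool.Agent.R893.TP2
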