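import Pool.Agent.R893.TP2.WtA
import Pool.Agent.Y63.KR.Limit

open scoped Classical

noncomputable section

namespace Pool.Agent.R893.TP2

open Pool.Agent.Y63.AWC

theorem radA : S_RADP := by
  intro G H _ _ _ _ p Q hp hQ hloc
  by_contra hne
  have : Fact p.Prime := ⟨hp⟩
  set P : Subgroup (G × H) := (Q.map (MonoidHom.fst G H)).prod (Q.map (MonoidHom.snd G H)) with hPdef
  have hP : IsPGroup p P := isP_prod (hQ.map _) (hQ.map _)
  have hQP : Q ≤ P := by
    intro z hz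
    rw [hPdef, Subgroup.mem_prod]
    exact ⟨⟨z, hz, rfl⟩, ⟨z, hz, rfl⟩⟩
  have hnil : Group.IsNilpotent P := hP.isNilpotent
  have hlt : Q.subgroupOf P < ⊤ := by
    rw [lt_top_iff_ne_top]
    intro h
    exact hne (le_antisymm hQP (Subgroup.subgroupOf_eq_top.1 h))
  have h1 := normalizerCondition_of_isNilpotent (Q.subgroupOf P) hlt
  obtain ⟨m, hm, hmQ⟩ := SetLike.exists_of_lt h1
  have hmQ' : (m : G × H) ∉ Q := fun h => hmQ (Subgroup.mem_subgroupOf.2 h)
  have hmN : (m : G × H) ∈ Subgroup.normalizer (Q : Set (G × H)) := by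
    rw [Subgroup.mem_normalizer_iff] at hm ⊢
    intro h
    constructor
    · intro hh
      have := (hm ⟨h, hQP hh⟩).1 (Subgroup.mem_subgroupOf.2 hh)
      exact Subgroup.mem_subgroupOf.1 this
    · intro hh
      have h2 : h ∈ P := by
        have h3 := P.mul_mem (P.mul_mem (P.inv_mem m.2) (hQP hh)) m.2
        have h4 : (m : G × H)⁻¹ * ((m : G × H) * h * (m : G × H)⁻¹) * (m : G × H) = h := by group
        rwa [h4] at h3
      exact Subgroup.mem_subgroupOf.1 ((hm ⟨h, h2⟩).2 (Subgroup.mem_subgroupOf.2 hh))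
  -- `N(Q)` normalizes `P`
  have hNP : ∀ n ∈ Subgroup.normalizer (Q : Set (G × H)), ∀ x ∈ P, n * x * n⁻¹ ∈ P := by
    intro n hn x hx
    rw [Subgroup.mem_normalizer_iff] at hn
    rw [hPdef, Subgroup.mem_prod] at hx ⊢
    obtain ⟨⟨q, hq, hq1⟩, ⟨r, hr, hr1⟩⟩ := hx
    refine ⟨⟨n * q * n⁻¹, (hn q).1 hq, ?_⟩, ⟨n * r * n⁻¹, (hn r).1 hr, ?_⟩⟩
    · change (n * q * n⁻¹).1 = (n * x * n⁻¹).1
      have : q.1 = x.1 := hq1
      simp [this]
    · change (n * r * n⁻¹).2 = (n * x * n⁻¹).2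
      have : r.2 = x.2 := hr1
      simp [this]
  set N := Subgroup.normalizer (Q : Set (G × H)) with hN
  have hn : (P.subgroupOf N).Normal := by
    constructor
    rintro ⟨x, hx⟩ hxP ⟨n, hnN⟩
    rw [Subgroup.mem_subgroupOf] at hxP ⊢
    exact hNP n hnN x hxP
  let M : Subgroup (N ⧸ Q.subgroupOf N) := (P.subgroupOf N).map (QuotientGroup.mk' (Q.subgroupOf N))
  have hM : M.Normal := Subgroup.Normal.map hn _ (QuotientGroup.mk'_surjective _)
  have hMp : IsPGroup p M := by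
    apply IsPGroup.map
    exact hP.comap_of_injective N.subtype (Subgroup.subtype_injective _)
  have hMb : M ≠ ⊥ := by
    intro hb
    have h2 : (QuotientGroup.mk' (Q.subgroupOf N)) ⟨m, hmN⟩ ∈ M :=
      ⟨⟨m, hmN⟩, Subgroup.mem_subgroupOf.2 m.2, rfl⟩
    rw [hb, Subgroup.mem_bot] at h2
    have h3 : (⟨m, hmN⟩ : N) ∈ Q.subgroupOf N := (QuotientGroup.eq_one_iff _).1 h2
    exact hmQ' (Subgroup.mem_subgroupOf.1 h3)
  have : Fintype (N ⧸ Q.subgroupOf N) := Fintype.ofFinite _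
  exact hloc (Pool.Agent.Y63.KR.defectZero_normal hMp hM hMb)

end Pool.Agent.R893.TP2
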