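import Pool.Agent.R893.TP2.Stm3

open scoped Classical

noncomputable section

namespace Pool.Agent.R893.TP2

open Pool.Agent.Y63.AWC

theorem regA : S_REGP := by
  intro G H _ _ _ _ p hp
  have h := card_mul_numRegularClasses p (G × H)
  have hG := card_mul_numRegularClasses p G
  have hH := card_mul_numRegularClasses p H
  have key : Nat.card {q : (G × H) × (G × H) // ¬ p ∣ orderOf q.1 ∧ q.1 * q.2 = q.2 * q.1} =
      Nat.card {q : G × G // ¬ p ∣ orderOf q.1 ∧ q.1 * q.2 = q.2 * q.1} *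
        Nat.card {q : H × H // ¬ p ∣ orderOf q.1 ∧ q.1 * q.2 = q.2 * q.1} := by
    rw [← Nat.card_prod]
    apply Nat.card_congr
    have ho : ∀ (x : G) (y : H), ¬ p ∣ orderOf (x, y) ↔ ¬ p ∣ orderOf x ∧ ¬ p ∣ orderOf y := by
      intro x y
      rw [Prod.orderOf_mk, hp.dvd_lcm, not_or]
    refine ⟨fun q => (⟨(q.1.1.1, q.1.2.1), ((ho _ _).1 q.2.1).1, congrArg Prod.fst q.2.2⟩,
        ⟨(q.1.1.2, q.1.2.2), ((ho _ _).1 q.2.1).2, congrArg Prod.snd q.2.2⟩),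
      fun r => ⟨((r.1.1.1, r.2.1.1), (r.1.1.2, r.2.1.2)),
        (ho _ _).2 ⟨r.1.2.1, r.2.2.1⟩, Prod.ext r.1.2.2 r.2.2.2⟩, fun q => rfl, fun r => rfl⟩
  rw [key, ← hG, ← hH, Nat.card_prod] at h
  have hpos : 0 < Nat.card G * Nat.card H := Nat.mul_pos Nat.card_pos Nat.card_pos
  apply Nat.eq_of_mul_eq_mul_left hpos
  rw [h]
  ring

end Pool.Agent.R893.TP2
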