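import Pool.Agent.H254R3.IN.Defs

/-!
# Tensor powers of blocks: definitions and statements (project TP2, helper893)
-/

open scoped BigOperators Classical

noncomputable section

namespace Pool.Agent.R893.TP2

open Pool.Agent.H254R3.IN

/-- The external product `(g, h) ↦ χ(g) ψ(h)` of two functions. -/
def ext {G H : Type} (χ : G → ℂ) (ψ : H → ℂ) : G × H → ℂ := fun z => χ z.1 * ψ z.2

/-- The set of external products of members of two sets of functions. -/
def extSet {G H : Type} (B : Set (G → ℂ)) (C : Set (H → ℂ)) : Set (G × H → ℂ) :=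
  {φ | ∃ χ ∈ B, ∃ ψ ∈ C, φ = ext χ ψ}

/-- Pull-back of a set of functions along a map. -/
def pb {G H : Type} (e : H → G) (B : Set (G → ℂ)) : Set (H → ℂ) :=
  {φ | ∃ χ ∈ B, φ = fun y => χ (e y)}

/-- The characters of height zero in the `p`-block `B` of `G` with defect group `D`: the
`χ ∈ B` with `χ(1)_p = |G : D|_p`. -/
def Irr0 (p : ℕ) {G : Type} [Group G] (D : Subgroup G) (B : Set (G → ℂ)) : Set (G → ℂ) :=
  {χ | χ ∈ B ∧ ∃ n : ℕ, (n : ℂ) = χ 1 ∧ n.factorization p = D.index.factorization p}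

/-- The normalizer of `D`. -/
abbrev NN {G : Type} [Group G] (D : Subgroup G) : Subgroup G := Subgroup.normalizer (D : Set G)

/-- `e` is the identification `N_{G×H}(D×E) = N_G(D) × N_H(E)`. -/
def IsNE {G H : Type} [Group G] [Group H] (D : Subgroup G) (E : Subgroup H)
    (e : NN (D.prod E) ≃* NN D × NN E) : Prop :=
  ∀ z, ((e z).1 : G) = (z : G × H).1 ∧ ((e z).2 : H) = (z : G × H).2

def S_IRR : Prop := ∀ (G H : Type) [Group G] [Group H] [Finite G] [Finite H]
  (χ : G → ℂ) (ψ : H → ℂ), IsIrr χ → IsIrr ψ → IsIrr (ext χ ψ)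

def S_IRRC : Prop := ∀ (G H : Type) [Group G] [Group H] [Finite G] [Finite H]
  (φ : G × H → ℂ), IsIrr φ → ∃ (χ : G → ℂ) (ψ : H → ℂ), IsIrr χ ∧ IsIrr ψ ∧ φ = ext χ ψ

def S_INJ : Prop := ∀ (G H : Type) [Group G] [Group H] [Finite G] [Finite H]
  (χ χ' : G → ℂ) (ψ ψ' : H → ℂ), IsIrr χ → IsIrr χ' → IsIrr ψ → IsIrr ψ' →
    ext χ ψ = ext χ' ψ' → χ = χ' ∧ ψ = ψ'

def S_OM : Prop := ∀ (G H : Type) [Group G] [Group H] [Finite G] [Finite H]
  (χ : G → ℂ) (ψ : H → ℂ) (x : G) (y : H), omega (ext χ ψ) (x, y) = omega χ x * omega ψ y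

def S_BLK : Prop := ∀ (G H : Type) [Group G] [Group H] [Finite G] [Finite H]
  (O : ValuationSubring ℂ) (B : Set (G → ℂ)) (C : Set (H → ℂ)),
    IsBlock O B → IsBlock O C → IsBlock O (extSet B C)

def S_COEF : Prop := ∀ (G H : Type) [Group G] [Group H] [Finite G] [Finite H]
  (O : ValuationSubring ℂ) (B : Set (G → ℂ)) (C : Set (H → ℂ)) (x : G) (y : H),
    IsBlock O B → IsBlock O C →
      blockCoeff (extSet B C) (x, y) = blockCoeff B x * blockCoeff C y

def S_DEF : Prop := ∀ (G H : Type) [Group G] [Group H] [Finite G] [Finite H]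
  (p : ℕ) (O : ValuationSubring ℂ) (B : Set (G → ℂ)) (C : Set (H → ℂ))
  (D : Subgroup G) (E : Subgroup H), p.Prime → (p : ℂ) ∈ O.nonunits →
    IsBlock O B → IsBlock O C → IsDefectGroup p O B D → IsDefectGroup p O C E →
      IsDefectGroup p O (extSet B C) (D.prod E)

def S_ISO1 : Prop := ∀ (G H : Type) [Group G] [Group H] [Finite G] [Finite H] (e : H ≃* G),
  (∀ χ : G → ℂ, IsIrr χ → IsIrr (fun y => χ (e y))) ∧
  (∀ (χ : G → ℂ) (y : H), omega (fun z => χ (e z)) y = omega χ (e y)) ∧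
  (∀ (O : ValuationSubring ℂ) (B : Set (G → ℂ)), IsBlock O B → IsBlock O (pb e B))

def S_ISO2 : Prop := ∀ (G H : Type) [Group G] [Group H] [Finite G] [Finite H] (e : H ≃* G),
  (∀ (B : Set (G → ℂ)) (y : H), blockCoeff (pb e B) y = blockCoeff B (e y)) ∧
  (∀ (p : ℕ) (O : ValuationSubring ℂ) (B : Set (G → ℂ)) (D : Subgroup G), p.Prime →
    IsDefectGroup p O B D → IsDefectGroup p O (pb e B) (D.comap e.toMonoidHom))

def S_ISO3 : Prop := ∀ (G H : Type) [Group G] [Group H] [Finite G] [Finite H] (e : H ≃* G)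
  (p : ℕ) (D : Subgroup G) (B : Set (G → ℂ)),
    Nat.card (Irr0 p (D.comap e.toMonoidHom) (pb e B)) = Nat.card (Irr0 p D B)

def S_NORM : Prop := ∀ (G H : Type) [Group G] [Group H] [Finite G] [Finite H]
  (D : Subgroup G) (E : Subgroup H), ∃ e : NN (D.prod E) ≃* NN D × NN E, IsNE D E e ∧
    (D.prod E).subgroupOf (NN (D.prod E)) =
      ((D.subgroupOf (NN D)).prod (E.subgroupOf (NN E))).comap e.toMonoidHom

def S_SUM : Prop := ∀ (G H : Type) [Group G] [Group H] [Finite G] [Finite H]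
  (D : Subgroup G) (E : Subgroup H) (e : NN (D.prod E) ≃* NN D × NN E), IsNE D E e →
  ∀ (θ : NN D → ℂ) (η : NN E → ℂ) (x : G) (y : H),
    (∑ᶠ z : {z : NN (D.prod E) // IsConj (x, y) (z : G × H)},
        (fun w => ext θ η (e w)) z / (fun w => ext θ η (e w)) 1) =
      (∑ᶠ z : {z : NN D // IsConj x (z : G)}, θ z / θ 1) *
        (∑ᶠ z : {z : NN E // IsConj y (z : H)}, η z / η 1)

def S_BC : Prop := ∀ (G H : Type) [Group G] [Group H] [Finite G] [Finite H]
  (p : ℕ) (O : ValuationSubring ℂ) (B : Set (G → ℂ)) (C : Set (H → ℂ))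
  (D : Subgroup G) (E : Subgroup H) (b : Set (NN D → ℂ)) (c : Set (NN E → ℂ))
  (e : NN (D.prod E) ≃* NN D × NN E), p.Prime → (p : ℂ) ∈ O.nonunits → IsNE D E e →
    IsBlock O B → IsBlock O C → IsBrauerCorrespondent p O D B b →
    IsBrauerCorrespondent p O E C c →
      IsBrauerCorrespondent p O (D.prod E) (extSet B C) (pb e (extSet b c))

def S_HT : Prop := ∀ (G : Type) [Group G] [Finite G]
  (p : ℕ) (O : ValuationSubring ℂ) (B : Set (G → ℂ)) (D : Subgroup G), p.Prime →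
    (p : ℂ) ∈ O.nonunits → IsBlock O B → IsDefectGroup p O B D →
      ∀ χ ∈ B, ∀ n : ℕ, (n : ℂ) = χ 1 → D.index.factorization p ≤ n.factorization p

def S_K0 : Prop := ∀ (G H : Type) [Group G] [Group H] [Finite G] [Finite H]
  (p : ℕ) (O : ValuationSubring ℂ) (B : Set (G → ℂ)) (C : Set (H → ℂ))
  (D : Subgroup G) (E : Subgroup H), p.Prime → (p : ℂ) ∈ O.nonunits →
    IsBlock O B → IsBlock O C → IsDefectGroup p O B D → IsDefectGroup p O C E →
      Nat.card (Irr0 p (D.prod E) (extSet B C)) = Nat.card (Irr0 p D B) * Nat.card (Irr0 p E C)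

def S_KB : Prop := ∀ (G H : Type) [Group G] [Group H] [Finite G] [Finite H]
  (O : ValuationSubring ℂ) (B : Set (G → ℂ)) (C : Set (H → ℂ)),
    IsBlock O B → IsBlock O C → Nat.card (extSet B C) = Nat.card B * Nat.card C

def S_REAL : Prop := ∀ A B g : ℕ, 0 < g →
  (∀ ε : ℝ, 0 < ε → ∃ C : ℝ, ∀ k : ℕ,
    ((A ^ 2 ^ k : ℕ) : ℝ) ≤ C * ((g ^ 2 ^ k : ℕ) : ℝ) ^ ε * ((B ^ 2 ^ k : ℕ) : ℝ)) → A ≤ B

/-- There are a group `G` of order `g` in `X`, a block `B` of `G` with defect group `D` and Brauer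
correspondent `b` such that `|Irr_0(B)| = a` and `|Irr_0(b)| = c`. -/
def AMd (p : ℕ) (O : ValuationSubring ℂ) (X : ∀ (G : Type) [Group G], Prop) (g a c : ℕ) : Prop :=
  ∃ (G : Type) (_ : Group G) (_ : Finite G) (D : Subgroup G) (B : Set (G → ℂ))
    (b : Set (NN D → ℂ)), X G ∧ IsBlock O B ∧ IsDefectGroup p O B D ∧
      IsBrauerCorrespondent p O D B b ∧ Nat.card G = g ∧ Nat.card (Irr0 p D B) = a ∧
      Nat.card (Irr0 p (D.subgroupOf (NN D)) b) = c

/-- There are a group `G` of order `g` in `X` and a block `B` of `G` with `a` irreducible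
characters and a defect group of order `d`. -/
def KBd (p : ℕ) (O : ValuationSubring ℂ) (X : ∀ (G : Type) [Group G], Prop) (g a d : ℕ) : Prop :=
  ∃ (G : Type) (_ : Group G) (_ : Finite G) (D : Subgroup G) (B : Set (G → ℂ)), X G ∧
    IsBlock O B ∧ IsDefectGroup p O B D ∧ Nat.card G = g ∧ Nat.card B = a ∧ Nat.card D = d

def S_AMD : Prop := ∀ (p : ℕ) (O : ValuationSubring ℂ) (X : ∀ (G : Type) [Group G], Prop),
  p.Prime → (p : ℂ) ∈ O.nonunits → (∀ (G : Type) [Group G], X G → X (G × G)) →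
    ∀ g a c : ℕ, AMd p O X g a c → AMd p O X (g * g) (a * a) (c * c)

def S_KBD : Prop := ∀ (p : ℕ) (O : ValuationSubring ℂ) (X : ∀ (G : Type) [Group G], Prop),
  p.Prime → (p : ℂ) ∈ O.nonunits → (∀ (G : Type) [Group G], X G → X (G × G)) →
    ∀ g a d : ℕ, KBd p O X g a d → KBd p O X (g * g) (a * a) (d * d)

end Pool.Agent.R893.TP2
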