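import Pool.Agent.Y63.AWC.Wt

/-!
# Weights of direct products: statements (project TP2, helper893)
-/

open scoped Classical

noncomputable section

namespace Pool.Agent.R893.TP2

open Pool.Agent.Y63.AWC

def S_RADP : Prop := ∀ (G H : Type) [Group G] [Group H] [Finite G] [Finite H] (p : ℕ)
  (Q : Subgroup (G × H)), p.Prime → IsPGroup p Q → loc p Q ≠ 0 →
    Q = (Q.map (MonoidHom.fst G H)).prod (Q.map (MonoidHom.snd G H))

def S_DZP : Prop := ∀ (G H : Type) [Group G] [Group H] [Finite G] [Finite H] (p : ℕ), p.Prime →
  numDefectZero p (G × H) = numDefectZero p G * numDefectZero p H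

def S_LOCP : Prop := ∀ (G H : Type) [Group G] [Group H] [Finite G] [Finite H] (p : ℕ)
  (Q : Subgroup G) (R : Subgroup H), p.Prime → loc p (Q.prod R) = loc p Q * loc p R

def S_WTP : Prop := ∀ (G H : Type) [Group G] [Group H] [Finite G] [Finite H] (p : ℕ), p.Prime →
  numWeights p (G × H) = numWeights p G * numWeights p H

def S_REGP : Prop := ∀ (G H : Type) [Group G] [Group H] [Finite G] [Finite H] (p : ℕ), p.Prime →
  numRegularClasses p (G × H) = numRegularClasses p G * numRegularClasses p H

end Pool.Agent.R893.TP2
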