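import Pool.Agent.R893.TP2.Stm3
import Pool.Agent.R893.TP2.Norm

open scoped Classical

noncomputable section

namespace Pool.Agent.R893.TP2

open Pool.Agent.Y63.AWC

theorem isP_prod {G H : Type} [Group G] [Group H] {p : ℕ} {Q : Subgroup G} {R : Subgroup H}
    (hQ : IsPGroup p Q) (hR : IsPGroup p R) : IsPGroup p (Q.prod R) := by
  rintro ⟨⟨x, y⟩, hxy⟩
  rw [Subgroup.mem_prod] at hxy
  obtain ⟨k, hk⟩ := hQ ⟨x, hxy.1⟩
  obtain ⟨l, hl⟩ := hR ⟨y, hxy.2⟩
  refine ⟨k + l, ?_⟩
  apply Subtype.ext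
  have hk' : x ^ p ^ k = 1 := congrArg Subtype.val hk
  have hl' : y ^ p ^ l = 1 := congrArg Subtype.val hl
  have e1 : x ^ p ^ (k + l) = 1 := by rw [pow_add, pow_mul, hk', one_pow]
  have e2 : y ^ p ^ (k + l) = 1 := by rw [pow_add, mul_comm, pow_mul, hl', one_pow]
  exact Prod.ext e1 e2

theorem card_norm_prod {G H : Type} [Group G] [Group H] [Finite G] [Finite H] (Q : Subgroup G)
    (R : Subgroup H) : Nat.card (Subgroup.normalizer ((Q.prod R : Subgroup (G × H)) : Set (G × H))) =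
      Nat.card (Subgroup.normalizer (Q : Set G)) * Nat.card (Subgroup.normalizer (R : Set H)) := by
  obtain ⟨e, -, -⟩ := norm G H Q R
  rw [← Nat.card_prod]
  exact Nat.card_congr e.toEquiv

theorem prod_inj {G H : Type} [Group G] [Group H] {Q Q' : Subgroup G} {R R' : Subgroup H}
    (h : Q.prod R = Q'.prod R') : Q = Q' ∧ R = R' := by
  constructor
  · ext x
    have := SetLike.ext_iff.1 h (x, 1)
    simpa [Subgroup.mem_prod] using this
  · ext y
    have := SetLike.ext_iff.1 h (1, y)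
    simpa [Subgroup.mem_prod] using this

theorem wtA (hrad : S_RADP) (hloc : S_LOCP) : S_WTP := by
  intro G H _ _ _ _ p hp
  have h := card_mul_numWeights p (G × H)
  have hG := card_mul_numWeights p G
  have hH := card_mul_numWeights p H
  have i1 : Fintype {Q : Subgroup (G × H) // IsPGroup p Q} := Fintype.ofFinite _
  have i2 : Fintype {Q : Subgroup G // IsPGroup p Q} := Fintype.ofFinite _
  have i3 : Fintype {Q : Subgroup H // IsPGroup p Q} := Fintype.ofFinite _
  rw [finsum_eq_sum_of_fintype] at h hG hH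
  have key : (∑ Q : {Q : Subgroup (G × H) // IsPGroup p Q},
        Nat.card (Subgroup.normalizer (Q.1 : Set (G × H))) * loc p Q.1) =
      (∑ Q : {Q : Subgroup G // IsPGroup p Q},
        Nat.card (Subgroup.normalizer (Q.1 : Set G)) * loc p Q.1) *
      (∑ Q : {Q : Subgroup H // IsPGroup p Q},
        Nat.card (Subgroup.normalizer (Q.1 : Set H)) * loc p Q.1) := by
    rw [Finset.sum_mul_sum, ← Finset.sum_product', Finset.univ_product_univ]
    symm
    refine Finset.sum_of_injOn (fun q => ⟨q.1.1.prod q.2.1, isP_prod q.1.2 q.2.2⟩) ?_ ?_ ?_ ?_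
    · rintro ⟨⟨Q, hQ⟩, ⟨R, hR⟩⟩ - ⟨⟨Q', hQ'⟩, ⟨R', hR'⟩⟩ - he
      have h1 := congrArg Subtype.val he
      obtain ⟨rfl, rfl⟩ := prod_inj h1
      rfl
    · intro q _
      exact Finset.mem_coe.2 (Finset.mem_univ _)
    · rintro ⟨S, hS⟩ - hne
      by_contra h0
      have h1 : loc p S ≠ 0 := fun h2 => h0 (by simp [h2])
      have h2 := hrad G H p S hp hS h1
      apply hne
      refine ⟨(⟨S.map (MonoidHom.fst G H), hS.map _⟩, ⟨S.map (MonoidHom.snd G H), hS.map _⟩),
        Finset.mem_coe.2 (Finset.mem_univ _), ?_⟩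
      exact Subtype.ext h2.symm
    · rintro ⟨⟨Q, hQ⟩, ⟨R, hR⟩⟩ -
      simp only
      rw [card_norm_prod, hloc G H p Q R hp]
      ring
  rw [key, ← hG, ← hH, Nat.card_prod] at h
  have hpos : 0 < Nat.card G * Nat.card H := Nat.mul_pos Nat.card_pos Nat.card_pos
  apply Nat.eq_of_mul_eq_mul_left hpos
  rw [h]
  ring

end Pool.Agent.R893.TP2
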